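import Pool.Agent.helper11.Tight.FinalT

/-!
Superseded by `Pool.Agent.Results.MP_ce98d8_co.ExponentOneHalf`. Kept for the record only.
-/

set_option autoImplicit false

namespace Pool.Agent.helper11.Reserve.ExponentTwoThirds

/-- For every `ε > 0` there are arbitrarily large `n` and a triangle-free graph on `n` vertices,
regular of degree `k`, with independence number exactly `k`, and `k < n ^ (2/3 + ε)`. -/
theorem exponent_two_thirds : ∀ ε : ℝ, 0 < ε → ∀ N : ℕ, ∃ n : ℕ, N ≤ n ∧
    ∃ (G : SimpleGraph (Fin n)) (k : ℕ),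
      (∀ v : Fin n, (G.neighborSet v).ncard = k) ∧ G.CliqueFree 3 ∧ G.indepNum = k ∧
        (k : ℝ) < (n : ℝ) ^ ((2 : ℝ) / 3 + ε) := by
  intro ε hε N
  obtain ⟨n, hn, G, inst, k, hreg, hcf, hin, hk⟩ := Pool.Agent.helper11.Tight.final' ε hε N
  refine ⟨n, hn, G, k, ?_, hcf, hin, hk⟩
  intro v
  have h := hreg v
  rw [← SimpleGraph.card_neighborSet_eq_degree, ← Nat.card_eq_fintype_card] at h
  exact h

end Pool.Agent.helper11.Reserve.ExponentTwoThirds
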